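import Pool.Agent.H.MP_44343f_gt.Main

namespace Pool.Agent.Results.MP_44343f_gt.No

open Matrix

abbrev V (n : ℕ) := Fin n → ℝ

abbrev Met (n : ℕ) := V n → Matrix (Fin n) (Fin n) ℝ

def ip {n : ℕ} (A : Matrix (Fin n) (Fin n) ℝ) (u v : V n) : ℝ := u ⬝ᵥ A *ᵥ v

def bv {n : ℕ} (i : Fin n) : V n := Pi.single i 1

noncomputable def chr {n : ℕ} (h : Met n) (x u v : V n) : V n :=
  (h x)⁻¹ *ᵥ fun l => (1 / 2 : ℝ) *
    (lineDeriv ℝ (fun z => ip (h z) v (bv l)) x u + lineDeriv ℝ (fun z => ip (h z) u (bv l)) x v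
      - lineDeriv ℝ (fun z => ip (h z) u v) x (bv l))

noncomputable def curv {n : ℕ} (h : Met n) (x X Y Z : V n) : V n :=
  lineDeriv ℝ (fun z => chr h z Y Z) x X - lineDeriv ℝ (fun z => chr h z X Z) x Y
    + chr h x X (chr h x Y Z) - chr h x Y (chr h x X Z)

noncomputable def ind {m n : ℕ} (h : Met n) (φ : V m → V n) : Met m := fun p =>
  Matrix.of fun i j => ip (h (φ p)) (lineDeriv ℝ φ p (bv i)) (lineDeriv ℝ φ p (bv j))

noncomputable def cov {m n : ℕ} (h : Met n) (φ : V m → V n) (u : V m) (W : V m → V n)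
    (p : V m) : V n :=
  lineDeriv ℝ W p u + chr h (φ p) (lineDeriv ℝ φ p u) (W p)

noncomputable def tension {m n : ℕ} (h : Met n) (φ : V m → V n) (p : V m) : V n :=
  ∑ i, ∑ j, (ind h φ p)⁻¹ i j •
    (cov h φ (bv i) (fun q => lineDeriv ℝ φ q (bv j)) p
      - lineDeriv ℝ φ p (chr (ind h φ) p (bv i) (bv j)))

noncomputable def bitension {m n : ℕ} (h : Met n) (φ : V m → V n) (p : V m) : V n :=
  ∑ i, ∑ j, (ind h φ p)⁻¹ i j •
    (cov h φ (bv i) (cov h φ (bv j) (tension h φ)) p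
      - cov h φ (chr (ind h φ) p (bv i) (bv j)) (tension h φ) p
      - curv h (φ p) (lineDeriv ℝ φ p (bv i)) (tension h φ p) (lineDeriv ℝ φ p (bv j)))

def Complete {n : ℕ} (g : Met n) : Prop :=
  ∀ x : ℕ → V n,
    (∀ ε : ℝ, 0 < ε → ∃ N : ℕ, ∀ k l : ℕ, N ≤ k → N ≤ l →
      ∃ c : ℝ → V n, ContDiff ℝ 1 c ∧ c 0 = x k ∧ c 1 = x l ∧
        ∫ r in (0 : ℝ)..1, √(ip (g (c r)) (deriv c r) (deriv c r)) < ε) →
    ∃ p : V n, Filter.Tendsto x Filter.atTop (nhds p)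

def IsMetric {n : ℕ} (g : Met n) : Prop :=
  (∀ i j, ContDiff ℝ (⊤ : ℕ∞) (fun x => g x i j)) ∧ ∀ x, (g x).PosDef

theorem result : ∃ (h : Met 5) (φ : V 4 → V 5),
    IsMetric h ∧ Complete h ∧ (∀ x X Y, ip (h x) (curv h x X Y Y) X ≤ 0) ∧
    ContDiff ℝ (⊤ : ℕ∞) φ ∧ Function.Injective φ ∧ IsMetric (ind h φ) ∧ Complete (ind h φ) ∧
    (∀ p, bitension h φ p = 0) ∧ ∃ p, tension h φ p ≠ 0 :=
  Pool.Agent.H.MP_44343f_gt.main

end Pool.Agent.Results.MP_44343f_gt.No
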